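import Pool.Agent.ZPK.StmtsD

/-!
Row SPT: splitting primes.
-/

set_option autoImplicit false

namespace Pool.Agent.ZPK.H21

open Polynomial NumberField

variable {F : Type} [Field F] [NumberField F]

/-- denominators -/
theorem exists_mul_mem (θ : 𝓞 F)
    (h : (minpoly ℤ θ).natDegree = Module.finrank ℚ F) (z : 𝓞 F) :
    ∃ D : ℤ, D ≠ 0 ∧ (D : 𝓞 F) * z ∈ Algebra.adjoin ℤ {θ} := by
  have hint : IsIntegral ℤ θ := RingOfIntegers.isIntegral θ
  have h1 : minpoly ℚ (θ : F) = (minpoly ℤ θ).map (algebraMap ℤ ℚ) := by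
    rw [minpoly.isIntegrallyClosed_eq_field_fractions ℚ F hint]
  have h2 : (minpoly ℚ (θ : F)).natDegree = Module.finrank ℚ F := by
    rw [h1, natDegree_map_eq_of_injective (algebraMap ℤ ℚ).injective_int, h]
  have h3 := (Field.primitive_element_iff_minpoly_natDegree_eq ℚ (θ : F)).2 h2
  have h4 : Algebra.adjoin ℚ {(θ : F)} = ⊤ := by
    rw [← IntermediateField.adjoin_simple_toSubalgebra_of_isAlgebraic
      (Algebra.IsAlgebraic.isAlgebraic (θ : F)), h3]
    rfl
  have h5 : (z : F) ∈ Algebra.adjoin ℚ {(θ : F)} := by rw [h4]; exact Algebra.mem_top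
  rw [Algebra.adjoin_singleton_eq_range_aeval] at h5
  obtain ⟨g, hg⟩ := h5
  have hg' : aeval (θ : F) g = (z : F) := hg
  obtain ⟨b, hb0, hb⟩ := IsLocalization.integerNormalization_spec (nonZeroDivisors ℤ) g
  refine ⟨b, nonZeroDivisors.ne_zero hb0, ?_⟩
  rw [Algebra.adjoin_singleton_eq_range_aeval]
  refine ⟨IsLocalization.integerNormalization (nonZeroDivisors ℤ) g, ?_⟩
  apply RingOfIntegers.coe_injective
  show algebraMap (𝓞 F) F (aeval θ (IsLocalization.integerNormalization (nonZeroDivisors ℤ) g)) =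
    algebraMap (𝓞 F) F ((b : 𝓞 F) * z)
  rw [← aeval_algebraMap_apply, map_mul, map_intCast]
  have e1 : aeval (algebraMap (𝓞 F) F θ)
      (IsLocalization.integerNormalization (nonZeroDivisors ℤ) g) =
      aeval (algebraMap (𝓞 F) F θ)
        ((IsLocalization.integerNormalization (nonZeroDivisors ℤ) g).map (algebraMap ℤ ℚ)) := by
    rw [aeval_map_algebraMap]
  rw [e1, hb]
  rw [map_zsmul, zsmul_eq_mul]
  congr 1

theorem exists_mem_conductor (θ : 𝓞 F)
    (h : (minpoly ℤ θ).natDegree = Module.finrank ℚ F) :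
    ∃ D : ℤ, D ≠ 0 ∧ (D : 𝓞 F) ∈ conductor ℤ θ := by
  classical
  choose D hD0 hD using exists_mul_mem θ h
  obtain ⟨s, hs⟩ := (Module.Finite.fg_top : (⊤ : Submodule ℤ (𝓞 F)).FG)
  refine ⟨∏ z ∈ s, D z, Finset.prod_ne_zero_iff.2 fun z _ => hD0 z, ?_⟩
  rw [mem_conductor_iff]
  intro b
  have hb : b ∈ Submodule.span ℤ (s : Set (𝓞 F)) := by rw [hs]; exact Submodule.mem_top
  induction hb using Submodule.span_induction with
  | mem x hx =>
    have e1 : ((∏ z ∈ s, D z : ℤ) : 𝓞 F) * x =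
        ((∏ z ∈ s.erase x, D z : ℤ) : 𝓞 F) * ((D x : 𝓞 F) * x) := by
      rw [← Finset.prod_erase_mul s D hx]
      push_cast
      ring
    rw [e1]
    exact Subalgebra.mul_mem _ (Subalgebra.intCast_mem _ _) (hD x)
  | zero => rw [mul_zero]; exact Subalgebra.zero_mem _
  | add x y _ _ hx hy => rw [mul_add]; exact Subalgebra.add_mem _ hx hy
  | smul a x _ hx =>
    rw [mul_smul_comm]
    exact Subalgebra.smul_mem _ hx a

theorem exponent_ne_zero (θ : 𝓞 F)
    (h : (minpoly ℤ θ).natDegree = Module.finrank ℚ F) : RingOfIntegers.exponent θ ≠ 0 := by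
  obtain ⟨D, hD0, hD⟩ := exists_mem_conductor θ h
  unfold RingOfIntegers.exponent
  rw [Ne, Ideal.absNorm_eq_zero_iff]
  intro hbot
  have h1 : D ∈ Ideal.under ℤ (conductor ℤ θ) := by
    rw [Ideal.under_def, Ideal.mem_comap]
    simpa using hD
  rw [hbot] at h1
  exact hD0 h1

/-- an integral Bezout relation -/
theorem exists_bezout (θ : 𝓞 F) : ∃ (u v : ℤ[X]) (c : ℤ), c ≠ 0 ∧
    u * minpoly ℤ θ + v * derivative (minpoly ℤ θ) = C c := by
  have hint : IsIntegral ℤ θ := RingOfIntegers.isIntegral θ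
  have h1 : minpoly ℚ (θ : F) = (minpoly ℤ θ).map (algebraMap ℤ ℚ) := by
    rw [minpoly.isIntegrallyClosed_eq_field_fractions ℚ F hint]
  have h2 : (minpoly ℚ (θ : F)).Separable :=
    (minpoly.irreducible (IsIntegral.of_finite ℚ (θ : F))).separable
  rw [h1] at h2
  obtain ⟨a, b, hab⟩ := h2
  obtain ⟨ma, hma, hA⟩ := IsLocalization.integerNormalization_spec (nonZeroDivisors ℤ) a
  obtain ⟨mb, hmb, hB⟩ := IsLocalization.integerNormalization_spec (nonZeroDivisors ℤ) b
  generalize IsLocalization.integerNormalization (nonZeroDivisors ℤ) a = A at hA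
  generalize IsLocalization.integerNormalization (nonZeroDivisors ℤ) b = B at hB
  refine ⟨C mb * A, C ma * B, ma * mb,
    mul_ne_zero (nonZeroDivisors.ne_zero hma) (nonZeroDivisors.ne_zero hmb), ?_⟩
  apply map_injective (algebraMap ℤ ℚ) (algebraMap ℤ ℚ).injective_int
  rw [Polynomial.map_add, Polynomial.map_mul, Polynomial.map_mul, Polynomial.map_mul,
    Polynomial.map_mul, hA, hB, ← derivative_map, map_C, map_C, map_C, map_mul]
  rw [zsmul_eq_mul, zsmul_eq_mul]
  have e1 : ((ma : ℤ) : ℚ[X]) = C (algebraMap ℤ ℚ ma) := by simp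
  have e2 : (mb : ℚ[X]) = C (algebraMap ℤ ℚ mb) := by simp
  rw [e1, e2, C_mul]
  linear_combination (C (algebraMap ℤ ℚ ma) * C (algebraMap ℤ ℚ mb)) * hab

theorem spt : SptStmt := by
  intro F _ _ θ hdeg
  obtain ⟨u, v, c, hc0, huv⟩ := exists_bezout θ
  have hexp := exponent_ne_zero θ hdeg
  refine ⟨RingOfIntegers.exponent θ + c.natAbs + 1, ?_⟩
  intro p hp hpp hsp
  haveI : Fact p.Prime := ⟨hp⟩
  have hpe : ¬ p ∣ RingOfIntegers.exponent θ := by
    intro hd
    have := Nat.le_of_dvd (Nat.pos_of_ne_zero hexp) hd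
    omega
  have hpc : ((c : ℤ) : ZMod p) ≠ 0 := by
    intro h0
    rw [ZMod.intCast_zmod_eq_zero_iff_dvd] at h0
    have h1 : p ∣ c.natAbs := Int.natCast_dvd.1 h0
    have := Nat.le_of_dvd (Int.natAbs_pos.2 hc0) h1
    omega
  have hmon : (minpoly ℤ θ).Monic := minpoly.monic (RingOfIntegers.isIntegral θ)
  set f : (ZMod p)[X] := Polynomial.map (Int.castRingHom (ZMod p)) (minpoly ℤ θ) with hf
  have hfm : f.Monic := hmon.map _
  have hf0 : f ≠ 0 := hfm.ne_zero
  have hfd : f.natDegree = Module.finrank ℚ F := by rw [hf, hmon.natDegree_map, hdeg]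
  have hsep : f.Separable := by
    have h1 := congrArg (Polynomial.map (Int.castRingHom (ZMod p))) huv
    rw [Polynomial.map_add, Polynomial.map_mul, Polynomial.map_mul, map_C,
      ← derivative_map] at h1
    have hcu : (Int.castRingHom (ZMod p)) c ≠ 0 := hpc
    refine ⟨C ((Int.castRingHom (ZMod p)) c)⁻¹ * Polynomial.map (Int.castRingHom (ZMod p)) u,
      C ((Int.castRingHom (ZMod p)) c)⁻¹ * Polynomial.map (Int.castRingHom (ZMod p)) v, ?_⟩
    rw [mul_assoc, mul_assoc, ← mul_add, h1, ← C_mul, inv_mul_cancel₀ hcu, C_1]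
  have hcard : f.roots.toFinset.card = Module.finrank ℚ F := by
    rw [Multiset.toFinset_card_of_nodup (nodup_roots hsep), ← hfd]
    exact hsp.natDegree_eq_card_roots.symm
  have hmem : ∀ a ∈ f.roots.toFinset, (X - C a : (ZMod p)[X]) ∈
      RingOfIntegers.monicFactorsMod θ p := by
    intro a ha
    rw [Multiset.mem_toFinset, mem_roots hf0] at ha
    rw [RingOfIntegers.monicFactorsMod, Multiset.mem_toFinset,
      Polynomial.mem_normalizedFactors_iff hf0]
    exact ⟨irreducible_X_sub_C a, monic_X_sub_C a, dvd_iff_isRoot.2 ha⟩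
  classical
  refine ⟨f.roots.toFinset.attach.image (fun a =>
    ((NumberField.Ideal.primesOverSpanEquivMonicFactorsMod hpe).symm
      ⟨X - C a.1, hmem a.1 a.2⟩ : Ideal (𝓞 F))), ?_, ?_⟩
  · rw [Finset.card_image_of_injective, Finset.card_attach, hcard]
    intro a b hab
    have h1 := (NumberField.Ideal.primesOverSpanEquivMonicFactorsMod hpe).symm.injective
      (Subtype.ext hab)
    have h2 : (X - C a.1 : (ZMod p)[X]) = X - C b.1 := congrArg Subtype.val h1
    have h3 : C a.1 = C b.1 := sub_right_injective h2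
    exact Subtype.ext (C_injective h3)
  · intro P hP
    rw [Finset.mem_image] at hP
    obtain ⟨a, -, rfl⟩ := hP
    have hin := NumberField.Ideal.inertiaDeg_primesOverSpanEquivMonicFactorsMod_symm_apply' hpe
      (hmem a.1 a.2)
    rw [natDegree_X_sub_C] at hin
    generalize hQ : (NumberField.Ideal.primesOverSpanEquivMonicFactorsMod hpe).symm
      ⟨X - C a.1, hmem a.1 a.2⟩ = Q at hin
    haveI : Q.1.IsPrime := Q.2.1
    haveI : Q.1.LiesOver (Ideal.span {(p : ℤ)}) := Q.2.2
    refine ⟨Q.2.1, ?_⟩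
    rw [← Ideal.pow_inertiaDeg p Q.1, hin, pow_one]

end Pool.Agent.ZPK.H21
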